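import Mathlib
import Pool.Agent.W957.CH.Stm2

/-!
# Rotation of a cycle
-/

set_option autoImplicit false

namespace Pool.Agent.W351.CH

open Finset Pool.Agent.W957.CH

lemma md (i o n : ℕ) (hi : i < n) (ho : o < n) :
    ((i + o) % n = i + o ∧ i + o < n) ∨ ((i + o) % n + n = i + o ∧ n ≤ i + o) := by
  by_cases h : i + o < n
  · left
    exact ⟨Nat.mod_eq_of_lt h, h⟩
  · right
    have h1 : (i + o) % n = (i + o - n) % n := Nat.mod_eq_sub_mod (by omega)
    have h2 : (i + o - n) % n = i + o - n := Nat.mod_eq_of_lt (by omega)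
    omega

lemma md_inj (i j o n : ℕ) (hi : i < n) (hj : j < n) (ho : o < n) (h : (i + o) % n = (j + o) % n) :
    i = j := by
  rcases md i o n hi ho with h1 | h1 <;> rcases md j o n hj ho with h2 | h2 <;> omega

lemma md_surj (j o n : ℕ) (hj : j < n) (ho : o < n) : ∃ i, i < n ∧ (i + o) % n = j := by
  by_cases h : o ≤ j
  · refine ⟨j - o, by omega, ?_⟩
    rw [Nat.sub_add_cancel h, Nat.mod_eq_of_lt hj]
  · refine ⟨j + n - o, by omega, ?_⟩
    have h1 : j + n - o + o = j + n := by omega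
    rw [h1, Nat.add_mod_right, Nat.mod_eq_of_lt hj]

lemma cons_iff (n i j o : ℕ) (hn : 3 ≤ n) (hi : i < n) (hj : j < n) (ho : o < n) :
    Pool.Agent.W957.CH.cons n i j ↔ Pool.Agent.W957.CH.cons n ((i + o) % n) ((j + o) % n) := by
  unfold Pool.Agent.W957.CH.cons
  rcases md i o n hi ho with h1 | h1 <;> rcases md j o n hj ho with h2 | h2 <;> omega

lemma adj_step {V : Type} (G : SimpleGraph V) (n : ℕ) (c : ℕ → V) (h : CR G n c) (a b : ℕ)
    (ha : a < n) (hab : (b = a + 1 ∧ b < n) ∨ (a = n - 1 ∧ b = 0)) : G.Adj (c a) (c b) := by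
  rcases hab with ⟨h1, h2⟩ | ⟨h1, h2⟩
  · subst h1
    exact h.adj a h2
  · subst h1 h2
    exact h.clo

lemma cr_rot {V : Type} (G : SimpleGraph V) (n : ℕ) (c : ℕ → V) (h : CR G n c) (o : ℕ) (ho : o < n) :
    CR G n (fun i => c ((i + o) % n)) := by
  have hn := h.three
  refine ⟨hn, ?_, ?_, ?_⟩
  · intro i j hi hj hij
    have h1 := h.inj _ _ (Nat.mod_lt _ (by omega)) (Nat.mod_lt _ (by omega)) hij
    exact md_inj i j o n hi hj ho h1
  · intro i hi
    apply adj_step G n c h _ _ (Nat.mod_lt _ (by omega))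
    rcases md i o n (by omega) ho with h1 | h1 <;>
      rcases md (i + 1) o n (by omega) ho with h2 | h2 <;> omega
  · apply adj_step G n c h _ _ (Nat.mod_lt _ (by omega))
    rcases md (n - 1) o n (by omega) ho with h1 | h1 <;>
      rcases md 0 o n (by omega) ho with h2 | h2 <;> omega

lemma img_rot {V : Type} [DecidableEq V] (n : ℕ) (c : ℕ → V) (o : ℕ) (ho : o < n) :
    img n (fun i => c ((i + o) % n)) = img n c := by
  ext x
  unfold img
  simp only [mem_image, mem_range]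
  constructor
  · rintro ⟨i, hi, rfl⟩
    exact ⟨(i + o) % n, Nat.mod_lt _ (by omega), rfl⟩
  · rintro ⟨j, hj, rfl⟩
    obtain ⟨i, hi, hij⟩ := md_surj j o n hj ho
    exact ⟨i, hi, by rw [hij]⟩

lemma chE_rot {V : Type} (G : SimpleGraph V) (n : ℕ) (c : ℕ → V) (hn : 3 ≤ n) (o : ℕ) (ho : o < n)
    (i : ℕ) (hi : i < n) :
    chE G n (fun i => c ((i + o) % n)) i ↔ chE G n c ((i + o) % n) := by
  constructor
  · rintro ⟨j, hj, hadj, hc⟩
    exact ⟨(j + o) % n, Nat.mod_lt _ (by omega), hadj, fun h => hc ((cons_iff n i j o hn hi hj ho).2 h)⟩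
  · rintro ⟨j, hj, hadj, hc⟩
    obtain ⟨j', hj', hjj⟩ := md_surj j o n hj ho
    refine ⟨j', hj', ?_, fun h => hc ?_⟩
    · show G.Adj (c ((i + o) % n)) (c ((j' + o) % n))
      rw [hjj]; exact hadj
    · rw [← hjj]
      exact (cons_iff n i j' o hn hi hj' ho).1 h

/-- rotation of the cycle -/
theorem t_ROT : S_ROT := by
  intro V _ X n c o hg ho
  have hn := hg.cr.three
  have himg := img_rot n c o ho
  refine ⟨⟨cr_rot X.G n c hg.cr o ho, ?_, ?_, hg.len⟩, himg, ?_, ?_⟩
  · intro i _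
    exact hg.sub _ (Nat.mod_lt _ (by omega))
  · rw [himg]; exact hg.chq
  · intro i hi
    exact chE_rot X.G n c hn o ho i hi
  · intro i hi
    unfold Cl Comp
    rw [himg, chE_rot X.G n c hn o ho i hi]
    constructor
    · rintro ⟨_, h2, h3, h4⟩
      exact ⟨Nat.mod_lt _ (by omega), h2, h3, h4⟩
    · rintro ⟨_, h2, h3, h4⟩
      exact ⟨hi, h2, h3, h4⟩

end Pool.Agent.W351.CH
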